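import Pool.Agent.R893.HW.Common

/-!
# MP_98b297_co: two disjoint Heawood graphs are edge-transitive under the fold group but not
cut-percolating
-/

namespace Pool.Agent.Results.MP_98b297_co.TwoHeawood

open Pool.Agent.R893.HW Pool.Agent.R893.HW.Bigraph

/-- two disjoint copies of the Heawood graph -/
def G : Bigraph (Bool × Fin 7) (Bool × Fin 7) := ⟨adj⟩

/-- the twisted swap -/
def tw (u : Fin 3) (k : Fin 7) : Equiv.Perm (Bool × Fin 7) × Equiv.Perm (Bool × Fin 7) :=
  (sw u k, sw u k)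

/-- the first copy -/
def L0 : Set ((Bool × Fin 7) ⊕ (Bool × Fin 7)) := {v | Sum.elim Prod.fst Prod.fst v = false}

lemma fix_tw (u : Fin 3) (k : Fin 7) : Fix (tw u k) = ∅ := by
  ext v
  simp only [Bigraph.Fix, Set.mem_ofPred_eq, Set.mem_empty_iff_false, iff_false]
  rcases v with a | a
  · intro h
    exact sw_ne u k a (Sum.inl.inj h)
  · intro h
    exact sw_ne u k a (Sum.inr.inj h)

lemma adj_copy {u v : (Bool × Fin 7) ⊕ (Bool × Fin 7)} (h : G.graph.Adj u v) :
    Sum.elim Prod.fst Prod.fst u = Sum.elim Prod.fst Prod.fst v := by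
  rcases h with ⟨a, b, h, rfl, rfl⟩ | ⟨a, b, h, rfl, rfl⟩
  · exact h.1
  · exact h.1.symm

lemma onV_copy (u : Fin 3) (k : Fin 7) (v : (Bool × Fin 7) ⊕ (Bool × Fin 7)) :
    Sum.elim Prod.fst Prod.fst (onV (tw u k) v) = !(Sum.elim Prod.fst Prod.fst v) := by
  rcases v with a | a <;> rfl

lemma isFold_tw (u : Fin 3) (k : Fin 7) : G.IsFold (tw u k) L0 := by
  have hinv : ∀ v, onV (tw u k) (onV (tw u k) v) = v := by
    rintro (a | a)
    · exact congrArg Sum.inl (sw_sw u k a)
    · exact congrArg Sum.inr (sw_sw u k a)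
  refine ⟨⟨fun a b => sw_adj u k a b, ?_, ?_, ?_⟩, ⟨?_, ?_⟩, ?_, ?_, ?_, ?_⟩
  · intro h
    have := congrArg (fun ψ : Equiv.Perm (Bool × Fin 7) × Equiv.Perm (Bool × Fin 7) =>
      ψ.1 (false, 0)) h
    exact sw_ne u k _ this
  · refine Prod.ext ?_ ?_ <;> ext1 x <;> exact sw_sw u k x
  · intro h
    rw [fix_tw] at h
    have h1 := h ⟨Sum.inl (false, 0), by simp⟩ ⟨Sum.inl (true, 0), by simp⟩
    have h2 := const_of_reachable
      (fun v : ((∅ : Set ((Bool × Fin 7) ⊕ (Bool × Fin 7)))ᶜ : Set _) =>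
        Sum.elim Prod.fst Prod.fst v.1) (fun a b hab => adj_copy hab) h1
    simp at h2
  · rw [fix_tw]; simp
  · intro x hx y _ hxy
    show _ = false
    rw [← adj_copy hxy]; exact hx
  · rw [fix_tw]; simp
  · rw [Set.disjoint_left]
    rintro x hx ⟨y, hy, rfl⟩
    have h1 : _ = false := hx
    have h2 : _ = false := hy
    rw [onV_copy, h2] at h1
    simp at h1
  · rw [fix_tw]; simp
  · rw [fix_tw]
    ext v
    simp only [Set.union_empty, Set.mem_union, Set.mem_univ, iff_true]
    rcases hv : Sum.elim Prod.fst Prod.fst v with _ | _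
    · exact Or.inl hv
    · right
      refine ⟨onV (tw u k) v, ?_, hinv v⟩
      show _ = false
      rw [onV_copy, hv]; rfl

lemma tw_mem (u : Fin 3) (k : Fin 7) : tw u k ∈ G.foldGroup :=
  Subgroup.subset_closure ⟨L0, isFold_tw u k⟩

/-- every edge is an image of the base edge -/
lemma reach (e : (Bool × Fin 7) × (Bool × Fin 7)) (he : e ∈ G.edges) :
    ∃ γ ∈ G.foldGroup, γ.1 (false, 0) = e.1 ∧ γ.2 (false, 1) = e.2 := by
  have key : ∀ e ∈ G.edges, e.1.1 = true →
      ∃ γ ∈ G.foldGroup, γ.1 (false, 0) = e.1 ∧ γ.2 (false, 1) = e.2 := by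
    rintro ⟨⟨s, p⟩, ⟨s', l⟩⟩ ⟨h1, h2⟩ h3
    simp only at h1 h2 h3
    subst h3
    subst h1
    obtain ⟨u, k, h4, h5⟩ := aff_flag p l h2
    refine ⟨tw u k, tw_mem u k, ?_, ?_⟩
    · show sw u k (false, 0) = _
      simp [sw_apply, swFun, h4]
    · show sw u k (false, 1) = _
      simp [sw_apply, swFun, h5]
  rcases hs : e.1.1 with _ | _
  · obtain ⟨γ, h1, h2, h3⟩ := key (sw 0 0 e.1, sw 0 0 e.2) ((sw_adj 0 0 _ _).2 he)
      (by simp [sw_fst, hs])
    refine ⟨tw 0 0 * γ, G.foldGroup.mul_mem (tw_mem 0 0) h1, ?_, ?_⟩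
    · show sw 0 0 (γ.1 _) = _
      rw [h2]; exact sw_sw 0 0 _
    · show sw 0 0 (γ.2 _) = _
      rw [h3]; exact sw_sw 0 0 _
  · exact key e he hs

lemma edgeTransitive : G.EdgeTransitive G.foldGroup := by
  refine ⟨⟨((false, 0), (false, 1)), rfl, by decide⟩, ?_⟩
  intro e he e' he'
  obtain ⟨γ, h1, h2, h3⟩ := reach e he
  obtain ⟨γ', h1', h2', h3'⟩ := reach e' he'
  refine ⟨γ' * γ⁻¹, G.foldGroup.mul_mem h1' (G.foldGroup.inv_mem h1), ?_, ?_⟩
  · show γ'.1 (γ.1.symm e.1) = _
    rw [← h2, Equiv.symm_apply_apply, h2']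
  · show γ'.2 (γ.2.symm e.2) = _
    rw [← h3, Equiv.symm_apply_apply, h3']

/-- at most one edge in each copy -/
def Small (E : Set ((Bool × Fin 7) × (Bool × Fin 7))) : Prop :=
  ∀ e ∈ E, ∀ e' ∈ E, e.1.1 = e'.1.1 → e = e'

lemma pull_small {φ L} (h : G.IsFold φ L) {E : Set ((Bool × Fin 7) × (Bool × Fin 7))}
    (hE : Small E) : Small (G.pullEdges φ L E) := by
  have raw : RawFold φ.1 φ.2 {a | Sum.inl a ∈ L} {b | Sum.inr b ∈ L} := by
    refine ⟨h.aut, h.inv1, h.inv2, ?_, ?_, ?_, ?_, ?_, ?_⟩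
    · intro a
      rcases h.cases (Sum.inl a) with h1 | h1 | h1
      · exact Or.inl (Sum.inl.inj h1)
      · exact Or.inr (Or.inl h1)
      · exact Or.inr (Or.inr h1)
    · intro a ha
      exact h.not_mem ha
    · intro a
      rcases h.cases (Sum.inr a) with h1 | h1 | h1
      · exact Or.inl (Sum.inr.inj h1)
      · exact Or.inr (Or.inl h1)
      · exact Or.inr (Or.inr h1)
    · intro a ha
      exact h.not_mem ha
    · intro a b ha hb hab
      exact h.closed ha (fun h1 => hb (Sum.inr.inj h1)) (adj_lr hab)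
    · intro a b hb ha hab
      exact h.closed hb (fun h1 => ha (Sum.inl.inj h1)) (adj_rl hab)
  rcases classify raw with ⟨h1, h2⟩ | ⟨s, h1, h2, h3, h4⟩
  · exfalso
    apply h.1.2.1
    refine Prod.ext ?_ ?_ <;> ext1 x
    · exact h1 x
    · exact h2 x
  · rintro ⟨a, b⟩ ⟨he, ⟨c, d⟩, hcd, h5, h6⟩ ⟨a', b'⟩ ⟨he', ⟨c', d'⟩, hcd', h5', h6'⟩ hs
    have hab : a.1 = b.1 := he.1
    have hab' : a'.1 = b'.1 := he'.1
    simp only at hs h5 h6 h5' h6'
    have k3 : ∀ a, Sum.inl a ∈ L ↔ a.1 = s := h3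
    have k4 : ∀ b, Sum.inr b ∈ L ↔ b.1 = s := h4
    by_cases hL : a.1 = s
    · have e1 : a = c := by
        simp only [leftFold, (k3 a).2 hL, if_true] at h5
        exact Sum.inl.inj h5
      have e2 : b = d := by
        simp only [leftFold, (k4 b).2 (hab ▸ hL), if_true] at h6
        exact Sum.inr.inj h6
      have e3 : a' = c' := by
        simp only [leftFold, (k3 a').2 (hs ▸ hL), if_true] at h5'
        exact Sum.inl.inj h5'
      have e4 : b' = d' := by
        simp only [leftFold, (k4 b').2 (by rw [← hab', ← hs]; exact hL), if_true] at h6'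
        exact Sum.inr.inj h6'
      subst e1 e2 e3 e4
      exact hE _ hcd _ hcd' hs
    · have n1 : Sum.inl a ∉ L := fun h => hL ((k3 a).1 h)
      have n2 : Sum.inr b ∉ L := fun h => hL (hab.trans ((k4 b).1 h))
      have n3 : Sum.inl a' ∉ L := fun h => hL (hs.trans ((k3 a').1 h))
      have n4 : Sum.inr b' ∉ L := fun h => hL ((hs.trans hab').trans ((k4 b').1 h))
      have e1 : φ.1 a = c := by
        simp only [leftFold, n1, if_false] at h5
        exact Sum.inl.inj h5
      have e2 : φ.2 b = d := by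
        simp only [leftFold, n2, if_false] at h6
        exact Sum.inr.inj h6
      have e3 : φ.1 a' = c' := by
        simp only [leftFold, n3, if_false] at h5'
        exact Sum.inl.inj h5'
      have e4 : φ.2 b' = d' := by
        simp only [leftFold, n4, if_false] at h6'
        exact Sum.inr.inj h6'
      have := hE _ hcd _ hcd' (by
        show c.1 = c'.1
        rw [← e1, ← e3, h1, h1, hs])
      have e5 : c = c' := congrArg Prod.fst this
      have e6 : d = d' := congrArg Prod.snd this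
      rw [← e1, ← e3] at e5
      rw [← e2, ← e4] at e6
      exact Prod.ext (φ.1.injective e5) (φ.2.injective e6)

lemma not_percolating : ¬ G.CutPercolating := by
  rintro ⟨m, E, ⟨e, he, h0⟩, hm, hstep⟩
  have : ∀ i ≤ m, Small (E i) := by
    intro i
    induction i with
    | zero =>
      intro _
      rw [h0]
      rintro _ rfl _ rfl _
      rfl
    | succ i ih =>
      intro hi
      obtain ⟨φ, L, hf, hE⟩ := hstep i hi
      rw [hE]
      exact pull_small hf (ih (by omega))
  have h1 := this m le_rfl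
  rw [hm] at h1
  have h2 := h1 ((false, 0), (false, 1)) ⟨rfl, by decide⟩ ((false, 0), (false, 2))
    ⟨rfl, by decide⟩ rfl
  simp at h2

/-- **The answer to the question is negative**: there is a bigraph which is edge-transitive under
the group generated by its fold involutions, but not cut-percolating. -/
theorem result : ∃ (A B : Type) (_ : Fintype A) (_ : Fintype B) (G : Bigraph A B),
    G.EdgeTransitive G.foldGroup ∧ ¬ G.CutPercolating :=
  ⟨_, _, inferInstance, inferInstance, G, edgeTransitive, not_percolating⟩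

end Pool.Agent.Results.MP_98b297_co.TwoHeawood
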